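import Pool.Agent.MP_237f1e_co.Defs
import Pool.Agent.MP_237f1e_co.Mg.Main

namespace Pool.Agent.Results.MP_237f1e_co.BendGeStraight

open Pool.Agent.MP_237f1e_co

/-- For every finite planar point set `P` and every angle `α ∈ (0, π)`, every plane
straight-line graph on `P` is matched by an `α`-bend graph on `P` with at least as many edges;
that is, `M_b(P, α) ≥ M(P)`. -/
theorem result (P : Finset (EuclideanSpace ℝ (Fin 2))) (α : ℝ) (hα : α ∈ Set.Ioo 0 Real.pi)
    (G : SimpleGraph P) (hG : IsStraightLineGraph P G) :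
    ∃ G' : SimpleGraph P, IsBendGraph P α G' ∧ G.edgeSet.ncard ≤ G'.edgeSet.ncard :=
  main P hα.1 hα.2 G hG

end Pool.Agent.Results.MP_237f1e_co.BendGeStraight
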